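import Pool.Agent.Helper61.QL.Goals
import Pool.Agent.Helper8.QS.PL
import Pool.Agent.Helper14.QS.DAT

/-!
Project QL (MP_0ebdb3_gt), packet QL-POL: the twisted polar coordinates.
-/

set_option autoImplicit false

open Set ComplexConjugate

namespace Pool.Agent.Helper73.QL

open Pool.Agent.Helper61 Pool.Agent.Helper61.QL Pool.Agent.Helper61.QT
open Pool.Agent.Helper61.QS (W R4)
open Pool.Agent.Helper61.QM (Mm)

/-- the derivative of the projection to `(r, α)` -/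
noncomputable def pr : R4 →L[ℝ] ℝ × ℝ :=
  (ContinuousLinearMap.fst ℝ ℝ (ℝ × ℝ × ℝ)).prod
    ((ContinuousLinearMap.fst ℝ ℝ ℝ).comp ((ContinuousLinearMap.snd ℝ ℝ (ℝ × ℝ)).comp
      (ContinuousLinearMap.snd ℝ ℝ (ℝ × ℝ × ℝ))))

theorem shL_contDiff {Λ : ℝ × ℝ → ℝ} (hΛ : IsShift Λ) : ContDiff ℝ 3 (shL Λ) := by
  have f1 : ContDiff ℝ 3 (fun x : R4 => x.1) := contDiff_fst
  have f2 : ContDiff ℝ 3 (fun x : R4 => x.2.1) := contDiff_fst.comp contDiff_snd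
  have f3 : ContDiff ℝ 3 (fun x : R4 => x.2.2.1) :=
    contDiff_fst.comp (contDiff_snd.comp contDiff_snd)
  have f4 : ContDiff ℝ 3 (fun x : R4 => x.2.2.2) :=
    contDiff_snd.comp (contDiff_snd.comp contDiff_snd)
  exact f1.prodMk (f2.prodMk (f3.prodMk (f4.add (hΛ.sm.comp (f1.prodMk f3)))))

theorem shL_fderiv {Λ : ℝ × ℝ → ℝ} (hΛ : IsShift Λ) (x c : R4) :
    fderiv ℝ (shL Λ) x c =
      (c.1, c.2.1, c.2.2.1, c.2.2.2 + fderiv ℝ Λ (x.1, x.2.2.1) (c.1, c.2.2.1)) := by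
  have g1 : HasFDerivAt (fun x : R4 => x.1) (ContinuousLinearMap.fst ℝ ℝ (ℝ × ℝ × ℝ)) x :=
    (ContinuousLinearMap.fst ℝ ℝ (ℝ × ℝ × ℝ)).hasFDerivAt
  have g2 : HasFDerivAt (fun x : R4 => x.2.1) ((ContinuousLinearMap.fst ℝ ℝ (ℝ × ℝ)).comp
      (ContinuousLinearMap.snd ℝ ℝ (ℝ × ℝ × ℝ))) x :=
    ((ContinuousLinearMap.fst ℝ ℝ (ℝ × ℝ)).comp
      (ContinuousLinearMap.snd ℝ ℝ (ℝ × ℝ × ℝ))).hasFDerivAt
  have g3 : HasFDerivAt (fun x : R4 => x.2.2.1) ((ContinuousLinearMap.fst ℝ ℝ ℝ).comp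
      ((ContinuousLinearMap.snd ℝ ℝ (ℝ × ℝ)).comp
      (ContinuousLinearMap.snd ℝ ℝ (ℝ × ℝ × ℝ)))) x :=
    ((ContinuousLinearMap.fst ℝ ℝ ℝ).comp ((ContinuousLinearMap.snd ℝ ℝ (ℝ × ℝ)).comp
      (ContinuousLinearMap.snd ℝ ℝ (ℝ × ℝ × ℝ)))).hasFDerivAt
  have g4 : HasFDerivAt (fun x : R4 => x.2.2.2) ((ContinuousLinearMap.snd ℝ ℝ ℝ).comp
      ((ContinuousLinearMap.snd ℝ ℝ (ℝ × ℝ)).comp
      (ContinuousLinearMap.snd ℝ ℝ (ℝ × ℝ × ℝ)))) x :=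
    ((ContinuousLinearMap.snd ℝ ℝ ℝ).comp ((ContinuousLinearMap.snd ℝ ℝ (ℝ × ℝ)).comp
      (ContinuousLinearMap.snd ℝ ℝ (ℝ × ℝ × ℝ)))).hasFDerivAt
  have gp : HasFDerivAt (fun x : R4 => (x.1, x.2.2.1)) pr x := pr.hasFDerivAt
  have gΛ : HasFDerivAt (fun x : R4 => Λ (x.1, x.2.2.1))
      ((fderiv ℝ Λ (x.1, x.2.2.1)).comp pr) x :=
    HasFDerivAt.comp x ((hΛ.sm.differentiable (by norm_num)) _).hasFDerivAt gp
  have h := (g1.prodMk (g2.prodMk (g3.prodMk (g4.add gΛ)))).fderiv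
  have h' := congrArg (fun L : R4 →L[ℝ] R4 => L c) h
  exact h'

theorem goalPOL : G_POL := by
  intro m Λ hΛ
  obtain ⟨hsm, hX, hT, hfd, htr⟩ := Pool.Agent.Helper8.QS.goalPL
  have hfdL : ∀ x c : R4, fderiv ℝ (polL Λ) x c = fderiv ℝ QS.pol (shL Λ x)
      (c.1, c.2.1, c.2.2.1, c.2.2.2 + fderiv ℝ Λ (x.1, x.2.2.1) (c.1, c.2.2.1)) := by
    intro x c
    have h1 : fderiv ℝ (polL Λ) x = (fderiv ℝ QS.pol (shL Λ x)).comp (fderiv ℝ (shL Λ) x) := by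
      apply fderiv_comp x
      · exact (hsm.differentiable (by norm_num)) _
      · exact ((shL_contDiff hΛ).differentiable (by norm_num)) _
    rw [h1, ContinuousLinearMap.comp_apply, shL_fderiv hΛ]
  refine ⟨⟨hsm.comp (shL_contDiff hΛ), fun x => hX _, ?_, ?_, Pool.Agent.Helper14.QS.dense_reg, ?_⟩,
    ⟨?_, ?_, ?_⟩, hfdL⟩
  · intro x c
    rw [hfdL]
    exact hT _ _
  · have h1 : Continuous fun x : R4 => Real.sin x.1 := Real.continuous_sin.comp continuous_fst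
    have h2 : Continuous fun x : R4 => Real.cos x.1 := Real.continuous_cos.comp continuous_fst
    have h3 : Continuous fun x : R4 => Real.sin x.2.1 :=
      Real.continuous_sin.comp (continuous_fst.comp continuous_snd)
    exact (isOpen_ne_fun h1 continuous_const).inter
      ((isOpen_ne_fun h2 continuous_const).inter (isOpen_ne_fun h3 continuous_const))
  · rintro x hx c ⟨τ, hτ⟩
    rw [hfdL] at hτ
    have h := htr m (shL Λ x) hx _ τ hτ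
    have e1 : c.1 = 0 := congrArg (fun z : R4 => z.1) h
    have e2 : c.2.1 = 0 := congrArg (fun z : R4 => z.2.1) h
    have e3 : c.2.2.1 = 0 := congrArg (fun z : R4 => z.2.2.1) h
    have e4 : c.2.2.2 + fderiv ℝ Λ (x.1, x.2.2.1) (c.1, c.2.2.1) = 0 :=
      congrArg (fun z : R4 => z.2.2.2) h
    have e5 : ((c.1, c.2.2.1) : ℝ × ℝ) = 0 := Prod.ext e1 e3
    rw [e5, map_zero, add_zero] at e4
    exact Prod.ext e1 (Prod.ext e2 (Prod.ext e3 e4))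
  · have h1 : ContDiff ℝ 1 (fun α : ℝ => Λ (Real.pi / 2, α)) :=
      (hΛ.sm.of_le (by norm_num)).comp (contDiff_const.prodMk contDiff_id)
    exact ((contDiff_const.mul contDiff_id).sub h1).add contDiff_const
  · unfold twL
    ring
  · intro α
    unfold twL
    rw [hΛ.per]
    ring

end Pool.Agent.Helper73.QL
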